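import Mathlib
import Pool.Agent.X215.BI.A

/-!
# `𝔯 = ω₁` does not give a barely independent family over `ω₁`

If there is a barely independent family over `ω₁` then `𝔰 = ω₁`: with `A_n` (`n < ω`) in the family and
`x_α = {n : α ∈ A_n}`, every infinite subset of `ω` is split by all but countably many `x_α`. So in
every model of `𝔯 = ω₁ < 𝔰` there is none.
-/

set_option autoImplicit false

namespace Pool.Agent.Results.MP_ce2de7_lc.ReapingNotEnough

open Pool.Agent.X215.BI
open scoped Cardinal

/-- If `𝔯 = ℵ₁ < 𝔰`, then the implication of Q1 fails. -/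
theorem result (hr : reaping = Cardinal.aleph 1) (hs : Cardinal.aleph 1 < splitting) :
    ¬ (reaping = Cardinal.aleph 1 →
      ∃ (L : Type) (I : Set (Set L)), #L = Cardinal.aleph 1 ∧ BarelyIndependent L I) := by
  intro h
  obtain ⟨L, I, hL, hI⟩ := h hr
  have h1 : splitting ≤ #L := by
    refine splitting_le ?_ ?_ hI
    · rw [hL]
      exact Cardinal.isRegular_aleph_one
    · rw [hL]
      exact Cardinal.aleph0_lt_aleph_one
  rw [hL] at h1
  exact absurd h1 (not_le.2 hs)

end Pool.Agent.Results.MP_ce2de7_lc.ReapingNotEnough
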